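import Mathlib
import Pool.Agent.W923.BR.Emb

set_option autoImplicit false

/-!
# Countably many graphs at once: keys, codes, the common parameter

The construction of `Pool.Agent.W923.BR` (two graphs) is carried out for countably many graphs. A
key of the graph `i` at `u` begins with the number of another graph `j`; it contains a partner in
the graph `j` whose tree is not larger than the tree of `u`, and is smaller if `i < j`. A chain of
partners strictly decreases in the lexicographic order of pairs (rank, number of the graph).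
-/

namespace Pool.Agent.Y537.SG

open Set Filter Topology MeasureTheory Pool.Agent.W923.BH Pool.Agent.W923.BI Pool.Agent.W923.BR

/-- The code with the trees `i` and `j` of the code `e` as its trees `0` and `1`. -/
def rr (i j : ℕ) (e : Bs) : Bs := fun n =>
  e (Nat.pair (if n.unpair.1 = 0 then i else j) n.unpair.2)

theorem TA_rr0 (i j : ℕ) (e u : Bs) : TA 0 (rr i j e) u = TA i e u := by
  funext s
  simp [TA, rr, nd]

theorem TA_rr1 (i j : ℕ) (e u : Bs) : TA 1 (rr i j e) u = TA j e u := by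
  funext s
  simp [TA, rr, nd]

theorem cont_rr (i j : ℕ) : Continuous (rr i j) := continuous_pi fun _ => continuous_apply _

/-- Keys of the graph `i` at `u`. -/
def Key2 (i : ℕ) (e u q : Bs) : Prop :=
  (i < q 0 ∧ Key 0 (rr i (q 0) e) u (Sh q)) ∨ (q 0 < i ∧ Key 1 (rr (q 0) i e) u (Sh q))

theorem closed_Key2 {Ω : Type*} [TopologicalSpace Ω] {e u q : Ω → Bs} (he : Continuous e)
    (hu : Continuous u) (hq : Continuous q) (i : ℕ) : IsClosed {p | Key2 i (e p) (u p) (q p)} := by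
  have h1 : {p | Key2 i (e p) (u p) (q p)} = ⋂ j : ℕ, ({p | ¬ q p 0 = j} ∪
      {p | (i < j ∧ Key 0 (rr i j (e p)) (u p) (Sh (q p))) ∨
        (j < i ∧ Key 1 (rr j i (e p)) (u p) (Sh (q p)))}) := by
    ext p
    simp only [mem_ofPred_eq, mem_iInter, mem_union, Key2]
    constructor
    · intro h j
      by_cases hj : q p 0 = j
      · subst hj
        exact Or.inr h
      · exact Or.inl hj
    · intro h
      rcases h (q p 0) with h | h
      · exact absurd rfl h
      · exact h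
  rw [h1]
  refine isClosed_iInter fun j => IsClosed.union ?_ ?_
  · exact (clopenP ((continuous_apply 0).comp hq) (fun m => ¬ m = j)).1
  · rcases lt_trichotomy i j with h | h | h
    · have h2 : {p | (i < j ∧ Key 0 (rr i j (e p)) (u p) (Sh (q p))) ∨
          (j < i ∧ Key 1 (rr j i (e p)) (u p) (Sh (q p)))} =
          {p | Key 0 (rr i j (e p)) (u p) (Sh (q p))} := by
        ext p
        simp [h, h.not_gt]
      rw [h2]
      exact closed_Key ((cont_rr i j).comp he) hu (cont_Sh.comp hq) 0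
    · subst h
      have h2 : {p | (i < i ∧ Key 0 (rr i i (e p)) (u p) (Sh (q p))) ∨
          (i < i ∧ Key 1 (rr i i (e p)) (u p) (Sh (q p)))} = ∅ := by
        ext p
        simp
      rw [h2]
      exact isClosed_empty
    · have h2 : {p | (i < j ∧ Key 0 (rr i j (e p)) (u p) (Sh (q p))) ∨
          (j < i ∧ Key 1 (rr j i (e p)) (u p) (Sh (q p)))} =
          {p | Key 1 (rr j i (e p)) (u p) (Sh (q p))} := by
        ext p
        simp [h, h.not_gt]
      rw [h2]
      exact closed_Key ((cont_rr j i).comp he) hu (cont_Sh.comp hq) 1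

/-- The increasing sequences no shift of which dominates a key. -/
def NN2 (i : ℕ) (e u : Bs) : Set Bs := {y | StrictMono y ∧ ∀ q, Key2 i e u q → ¬ Dom y q}

theorem NN2_Sh {i : ℕ} {e u y : Bs} (h : y ∈ NN2 i e u) : Sh y ∈ NN2 i e u :=
  ⟨strictMono_Sh h.1, fun q hq hd => h.2 q hq ((Dom_Sh h.1).1 hd)⟩

theorem Dom_cons {y q : Bs} (hy : StrictMono y) (h : Dom y (Sh q)) : Dom y q := by
  obtain ⟨k, hk⟩ := h
  refine ⟨k + q 0, fun j => ?_⟩
  rcases j with _ | j
  · exact (hy.id_le (q 0)).trans (hy.monotone (by simp))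
  · exact (hk j).trans (hy.monotone (by omega))

theorem NN2_sub0 {i j : ℕ} (hij : i < j) {e u y : Bs} (h : y ∈ NN2 i e u) :
    y ∈ NN 0 (rr i j e) u := by
  refine ⟨h.1, fun q hq hd => ?_⟩
  have h1 : Key2 i e u (fun n => Nat.casesOn n j q) := Or.inl ⟨hij, hq⟩
  exact h.2 _ h1 (Dom_cons h.1 hd)

theorem NN2_sub1 {i j : ℕ} (hij : i < j) {e u y : Bs} (h : y ∈ NN2 j e u) :
    y ∈ NN 1 (rr i j e) u := by
  refine ⟨h.1, fun q hq hd => ?_⟩
  have h1 : Key2 j e u (fun n => Nat.casesOn n i q) := Or.inr ⟨hij, hq⟩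
  exact h.2 _ h1 (Dom_cons h.1 hd)

/-- The relation `y ∈ NN2 i e u` is Borel. -/
theorem meas_NN2 (i : ℕ) : MeasurableSet {p : (Bs × Bs) × Bs | p.2 ∈ NN2 i p.1.1 p.1.2} := by
  have h1 : {p : (Bs × Bs) × Bs | p.2 ∈ NN2 i p.1.1 p.1.2} =
      {p | StrictMono p.2} ∩ (⋃ k, {p : (Bs × Bs) × Bs | ∃ q, (p, q) ∈
        {r : ((Bs × Bs) × Bs) × Bs | Key2 i r.1.1.1 r.1.1.2 r.2} ∧
          ∀ j, q j ≤ p.2 (j + k)})ᶜ := by
    ext p
    simp only [NN2, mem_inter_iff, mem_compl_iff, mem_iUnion, mem_ofPred_eq, not_exists, Dom]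
    constructor
    · rintro ⟨h1, h2⟩
      exact ⟨h1, fun k q hq => h2 q hq.1 k hq.2⟩
    · rintro ⟨h1, h2⟩
      exact ⟨h1, fun q hq k hk => h2 k q ⟨hq, hk⟩⟩
  rw [h1]
  refine MeasurableSet.inter (measurable_snd meas_StrictMono) ?_
  refine (MeasurableSet.iUnion fun k => ?_).compl
  refine (closed_proj2 ?_ continuous_snd k).measurableSet
  exact closed_Key2 (continuous_fst.comp (continuous_fst.comp continuous_fst))
    (continuous_snd.comp (continuous_fst.comp continuous_fst)) continuous_snd i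

/-! ### Codes of colourings -/

/-- See `Bad1`. -/
def R2' (i : ℕ) (p : Bs × Bs) (o : Bs) : Prop :=
  sl 0 o ∈ NN2 i p.1 p.2 ∧ ∀ j < p.2 0,
    EvG (cc p.2 j) (fun k => (p.2, sl 0 o) ∈ UU k) (sl (2 * j + 1) o) ∧
    EvG (cc p.2 j) (fun k => (p.2, Sh (sl 0 o)) ∈ UU k) (sl (2 * j + 2) o) ∧
    (sl (2 * j + 1) o (en []) = 1 ↔ sl (2 * j + 2) o (en []) = 1)

/-- See `Bad1`. -/
def Bad2 (i : ℕ) (p : Bs × Bs) : Prop := Bad1 p ∨ ∃ o, R2' i p o

theorem meas_R2' (i : ℕ) : MeasurableSet {q : (Bs × Bs) × Bs | R2' i q.1 q.2} := by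
  have hu : Measurable fun q : (Bs × Bs) × Bs => q.1.2 := measurable_snd.comp measurable_fst
  have hs : ∀ j, Measurable fun q : (Bs × Bs) × Bs => sl j q.2 := fun j =>
    (cont_sl j).measurable.comp measurable_snd
  have hc : ∀ j, Measurable fun q : (Bs × Bs) × Bs => cc q.1.2 j := fun j =>
    (cont_cc j).measurable.comp hu
  have hev : ∀ j m, MeasurableSet {q : (Bs × Bs) × Bs | sl j q.2 m = 1} := fun j m =>
    ((measurable_pi_apply m).comp (hs j)) (measurableSet_singleton 1)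
  unfold R2'
  simp only [Set.ofPred_and, Set.ofPred_forall]
  refine MeasurableSet.inter ?_ (MeasurableSet.iInter fun j => ?_)
  · exact (measurable_fst.prodMk (hs 0)) (meas_NN2 i)
  · have h0 : MeasurableSet {q : (Bs × Bs) × Bs | j < q.1.2 0} :=
      ((measurable_pi_apply 0).comp hu) (measurableSet_Ioi (a := j))
    have h1 : MeasurableSet {q : (Bs × Bs) × Bs |
        EvG (cc q.1.2 j) (fun k => (q.1.2, sl 0 q.2) ∈ UU k) (sl (2 * j + 1) q.2)} :=
      meas_EvG (hc j) (hs _) fun k => (hu.prodMk (hs 0)) (meas_UU k)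
    have h2 : MeasurableSet {q : (Bs × Bs) × Bs |
        EvG (cc q.1.2 j) (fun k => (q.1.2, Sh (sl 0 q.2)) ∈ UU k) (sl (2 * j + 2) q.2)} :=
      meas_EvG (hc j) (hs _) fun k => (hu.prodMk (measurable_Sh.comp (hs 0))) (meas_UU k)
    have h3 : MeasurableSet {q : (Bs × Bs) × Bs |
        sl (2 * j + 1) q.2 (en []) = 1 ↔ sl (2 * j + 2) q.2 (en []) = 1} := by
      have : {q : (Bs × Bs) × Bs |
          sl (2 * j + 1) q.2 (en []) = 1 ↔ sl (2 * j + 2) q.2 (en []) = 1} =
          ({q | sl (2 * j + 1) q.2 (en []) = 1} ∩ {q | sl (2 * j + 2) q.2 (en []) = 1}) ∪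
          ({q | sl (2 * j + 1) q.2 (en []) = 1}ᶜ ∩ {q | sl (2 * j + 2) q.2 (en []) = 1}ᶜ) := by
        ext q
        simp only [mem_ofPred_eq, mem_union, mem_inter_iff, mem_compl_iff]
        tauto
      rw [this]
      exact ((hev _ _).inter (hev _ _)).union ((hev _ _).compl.inter (hev _ _).compl)
    exact MeasurableSet.imp h0 (h1.inter (h2.inter h3))

theorem analytic_Bad2 (i : ℕ) : AnalyticSet {p : Bs × Bs | Bad2 i p} := by
  have h1 : {p : Bs × Bs | Bad2 i p} = {p : Bs × Bs | ∃ o, (p, o) ∈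
      {q : (Bs × Bs) × Bs | ∀ n, cc q.1.2 (q.2 0) (en (ini (Sh q.2) n)) = 0} ∪
        {q : (Bs × Bs) × Bs | R2' i q.1 q.2}} := by
    ext p
    simp only [Bad2, Bad1, mem_ofPred_eq, mem_union]
    constructor
    · rintro (⟨o, h⟩ | ⟨o, h⟩)
      · exact ⟨o, Or.inl h⟩
      · exact ⟨o, Or.inr h⟩
    · rintro ⟨o, h | h⟩
      · exact Or.inl ⟨o, h⟩
      · exact Or.inr ⟨o, h⟩
  rw [h1]
  exact analytic_proj (meas_Bad1.union (meas_R2' i))

/-- **The parameter.** -/
theorem exists_param2 : ∃ e : Bs, ∀ i u, (∃ o, ∀ n, TA i e u (ini o n)) ↔ Bad2 i (e, u) := by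
  choose D hD1 hD2 using fun i => exists_closed (analytic_Bad2 i)
  obtain ⟨e, he⟩ := exists_code D hD1
  exact ⟨e, fun i u => by rw [he i u, ← hD2 i (e, u)]; rfl⟩

/-- If `u` is good then there is a key at `u`. -/
theorem exists_key2 (i : ℕ) {e u : Bs} (hu : ¬ Bad2 i (e, u)) : ∃ q, Key2 i e u q := by
  by_contra hno
  have h1 : ∀ j, ∀ w : Bs, ∃ n, cc u j (en (ini w n)) ≠ 0 := by
    intro j w
    by_contra h
    push Not at h
    refine hu (Or.inl ⟨fun n => Nat.casesOn n j w, fun n => ?_⟩)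
    exact h n
  choose A hA using fun j => exists_codes (U := UU) (h1 j)
  have hm : ∀ j, MeasurableSet {y : Bs | (u, y) ∈ A j} := fun j =>
    (measurable_const.prodMk measurable_id) (codes_meas (hA j))
  obtain ⟨y, hy, h2⟩ := shift_bits (fun j => {y : Bs | (u, y) ∈ A j}) hm (u 0)
  choose E hE using fun j => (hA j).exists_eval (u, y)
  choose E' hE' using fun j => (hA j).exists_eval (u, Sh y)
  obtain ⟨o, ho⟩ := exists_sl fun k => if k = 0 then y else if k % 2 = 1 then E (k / 2)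
    else E' (k / 2 - 1)
  have h0 : sl 0 o = y := ho 0
  have h3 : ∀ j, sl (2 * j + 1) o = E j := by
    intro j
    rw [ho, if_neg (by omega), if_pos (by omega)]
    congr 1
    omega
  have h4 : ∀ j, sl (2 * j + 2) o = E' j := by
    intro j
    rw [ho, if_neg (by omega), if_neg (by omega)]
    congr 1
    omega
  refine hu (Or.inr ⟨o, ?_, fun j hj => ?_⟩)
  · rw [h0]
    exact ⟨hy, fun q hq => absurd ⟨q, hq⟩ hno⟩
  · rw [h0, h3, h4]
    refine ⟨hE j, hE' j, ?_⟩
    rw [(hA j).eval _ _ (hE j), (hA j).eval _ _ (hE' j)]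
    exact h2 j hj

/-- A colouring with finitely many colours gives a good `u`. -/
theorem exists_good2 (i : ℕ) (e : Bs) (n : ℕ) (C : Bs × Bs → ℕ) (hC : Measurable C)
    (hlt : ∀ p, C p < n) (hne : ∀ u, ∀ y ∈ NN2 i e u, C (u, y) ≠ C (u, Sh y)) :
    ∃ u, ¬ Bad2 i (e, u) := by
  choose c hc using fun j => exists_code_of_meas (hC (measurableSet_singleton j))
  let u : Bs := fun m => if m = 0 then n else c (m - 1).unpair.1 (m - 1).unpair.2
  have hu0 : u 0 = n := rfl
  have huc : ∀ j, cc u j = c j := by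
    intro j
    funext m
    have h1 : 1 + Nat.pair j m ≠ 0 := by omega
    have h2 : 1 + Nat.pair j m - 1 = Nat.pair j m := by omega
    simp only [cc, u, h1, h2, if_false, Nat.unpair_pair]
  refine ⟨u, ?_⟩
  rintro (⟨o, ho⟩ | ⟨o, h1, h2⟩)
  · obtain ⟨m, hm⟩ := (hc (o 0)).wf (Sh o)
    have h3 := ho m
    change cc u (o 0) (en (ini (Sh o) m)) = 0 at h3
    rw [huc] at h3
    exact hm h3
  · obtain ⟨h3, h4, h5⟩ := h2 (C (u, sl 0 o)) (hlt _)
    rw [huc] at h3 h4
    rw [(hc _).eval _ _ h3, (hc _).eval _ _ h4] at h5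
    exact hne u _ h1 (h5.1 rfl).symm

section main

variable {e : Bs} (he : ∀ i u, (∃ o, ∀ n, TA i e u (ini o n)) ↔ Bad2 i (e, u))

include he

theorem acc_of_good2 {i : ℕ} {u : Bs} (hu : ¬ Bad2 i (e, u)) : Acc (ch (TA i e u)) [] :=
  acc_of_no_branch fun h => hu ((he i u).1 h)

theorem good_of_acc2 {i : ℕ} {u : Bs} (hu : Acc (ch (TA i e u)) []) : ¬ Bad2 i (e, u) := by
  intro h
  obtain ⟨o, ho⟩ := (he i u).2 h
  exact no_branch_of_acc hu ho

/-- **Partners.** -/
theorem partner {i : ℕ} {u : Bs} (hu : Acc (ch (TA i e u)) []) :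
    ∃ j z, ∃ hz : Acc (ch (TA j e z)) [], hz.rank < hu.rank ∨ (hz.rank ≤ hu.rank ∧ j < i) := by
  have hb := good_of_acc2 he hu
  obtain ⟨q, hq⟩ := exists_key2 i hb
  rcases hq with ⟨hi, hq⟩ | ⟨hi, hq⟩
  · unfold Key at hq
    rw [if_pos rfl] at hq
    obtain ⟨hq, hty⟩ := hq
    rcases hq with ⟨-, hbr⟩ | ⟨h0, hE⟩
    · have h3 := (branch_both hbr).1
      rw [TA_rr0] at h3
      exact absurd ((he i u).1 ⟨_, h3⟩) hb
    · have hne : Sh (sd (Sh q)) (en []) ≠ 0 := by
        intro h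
        refine hty ⟨h0, ?_⟩
        rw [Nat.add_comm]
        exact h
      have key : ∀ T : List ℕ → Prop, TA 0 (rr i (q 0) e) u = T → ∀ hT : Acc (ch T) [],
          ∃ ht : Acc (ch (TA 1 (rr i (q 0) e) (fs (Sh q)))) (ods []), ht.rank < hT.rank := by
        rintro T rfl hT
        exact comp_F hE hT [] rfl (InT_nil _) (tau_nil _ _ _) rfl hne
      obtain ⟨hz, hlt⟩ := key _ (TA_rr0 i (q 0) e u) hu
      have key2 : ∀ T : List ℕ → Prop, TA 1 (rr i (q 0) e) (fs (Sh q)) = T →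
          ∃ ht : Acc (ch T) [], ht.rank < hu.rank := by
        rintro T rfl
        exact ⟨hz, hlt⟩
      obtain ⟨hz', hlt'⟩ := key2 _ (TA_rr1 i (q 0) e (fs (Sh q)))
      exact ⟨q 0, fs (Sh q), hz', Or.inl hlt'⟩
  · unfold Key at hq
    rw [if_neg one_ne_zero] at hq
    obtain ⟨hq, hty⟩ := hq
    rcases hq with ⟨-, hbr⟩ | ⟨h0, hE⟩
    · have h3 := (branch_both hbr).2
      rw [TA_rr1] at h3
      exact absurd ((he i u).1 ⟨_, h3⟩) hb
    · have hne : Sh (sd (Sh q)) (en []) = 0 := by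
        by_contra h
        refine hty ⟨h0, ?_⟩
        rw [Nat.add_comm]
        exact h
      have key : ∀ T : List ℕ → Prop, TA 1 (rr (q 0) i e) u = T → ∀ hT : Acc (ch T) [],
          ∃ ht : Acc (ch (TA 0 (rr (q 0) i e) (fs (Sh q)))) (evs []), ht.rank ≤ hT.rank := by
        rintro T rfl hT
        exact comp_T hE hT [] rfl (InT_nil _) (tau_nil _ _ _) rfl hne
      obtain ⟨hz, hlt⟩ := key _ (TA_rr1 (q 0) i e u) hu
      have key2 : ∀ T : List ℕ → Prop, TA 0 (rr (q 0) i e) (fs (Sh q)) = T →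
          ∃ ht : Acc (ch T) [], ht.rank ≤ hu.rank := by
        rintro T rfl
        exact ⟨hz, hlt⟩
      obtain ⟨hz', hlt'⟩ := key2 _ (TA_rr0 (q 0) i e (fs (Sh q)))
      exact ⟨q 0, fs (Sh q), hz', Or.inr ⟨hlt', hi⟩⟩

theorem all_bad2 (i : ℕ) (u : Bs) : Bad2 i (e, u) := by
  by_contra hcon
  have key : ∀ o : Ordinal.{0}, ∀ i : ℕ, ∀ u, ∀ hu : Acc (ch (TA i e u)) [],
      hu.rank = o → False := by
    intro o
    induction o using WellFoundedLT.induction with
    | ind o ih =>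
      intro i
      induction i using Nat.strong_induction_on with
      | _ i ih2 =>
        rintro u hu rfl
        obtain ⟨j, z, hz, h1 | ⟨h1, h2⟩⟩ := partner he hu
        · exact ih hz.rank h1 j z hz rfl
        · rcases lt_or_eq_of_le h1 with h3 | h3
          · exact ih hz.rank h3 j z hz rfl
          · exact ih2 j h2 z hz h3
  exact key _ i u (acc_of_good2 he hcon) rfl

end main

/-- **The graphs.** For a suitable `e`, none of the graphs has a Borel colouring with
finitely many colours. -/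
theorem exists_e2 : ∃ e : Bs, ∀ (i n : ℕ) (C : Bs × Bs → ℕ), Measurable C →
    (∀ p, C p < n) → ∃ u, ∃ y ∈ NN2 i e u, C (u, y) = C (u, Sh y) := by
  obtain ⟨e, he⟩ := exists_param2
  refine ⟨e, fun i n C hC hlt => ?_⟩
  by_contra hcon
  push Not at hcon
  obtain ⟨u, hu⟩ := exists_good2 i e n C hC hlt hcon
  exact hu (all_bad2 he i u)

end Pool.Agent.Y537.SG
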