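import Mathlib
import Pool.Agent.Y537.SG.Core

set_option autoImplicit false

/-!
# One Borel set of infinite sets of natural numbers for every set of indices
-/

namespace Pool.Agent.Y537.SG

open Set Filter Topology MeasureTheory Pool.Agent.W923.BH Pool.Agent.W923.BI Pool.Agent.W923.BR

/-- The increasing sequences the residues modulo `4` of which are `…, 0, 1, 2, 0, 1, 2, …`. -/
def Y3 : Set Bs := {y | StrictMono y ∧ ∃ m < 3, ∀ n, y n % 4 = (n + m) % 3}

theorem Y3_Sh {y : Bs} (h : y ∈ Y3) : Sh y ∈ Y3 := by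
  obtain ⟨h1, m, hm, h2⟩ := h
  refine ⟨strictMono_Sh h1, (m + 1) % 3, Nat.mod_lt _ (by norm_num), fun n => ?_⟩
  have := h2 (n + 1)
  change y (n + 1) % 4 = _
  omega

theorem Y3_ne {y : Bs} (h : y ∈ Y3) : y 0 % 4 % 3 ≠ Sh y 0 % 4 % 3 := by
  obtain ⟨h1, m, hm, h2⟩ := h
  have h3 := h2 0
  have h4 := h2 1
  change y 0 % 4 % 3 ≠ y 1 % 4 % 3
  omega

theorem meas_Y3 : MeasurableSet Y3 := by
  have h1 : Y3 = {y : Bs | StrictMono y} ∩ ⋃ m : ℕ, ⋃ (_ : m < 3), ⋂ n : ℕ,
      {y : Bs | y n % 4 = (n + m) % 3} := by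
    ext y
    simp only [Y3, mem_ofPred_eq, mem_inter_iff, mem_iUnion, mem_iInter, exists_prop]
  rw [h1]
  refine meas_StrictMono.inter (MeasurableSet.iUnion fun m => MeasurableSet.iUnion fun _ =>
    MeasurableSet.iInter fun n => ?_)
  exact (clopenP (continuous_apply n) (fun a => a % 4 = (n + m) % 3)).1.measurableSet

/-- The sequence which repeats every value `a` of `z` three times, as `4 a, 4 a + 1, 4 a + 2`. -/
def F3 (z : Bs) : Bs := fun k => 4 * z (k / 3) + k % 3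

theorem F3_mem {z : Bs} (hz : StrictMono z) : F3 z ∈ Y3 := by
  refine ⟨strictMono_nat_of_lt_succ fun k => ?_, 0, by norm_num, fun n => ?_⟩
  · unfold F3
    rcases Nat.lt_or_ge (k % 3) 2 with h | h
    · have h1 : (k + 1) / 3 = k / 3 := by omega
      rw [h1]
      omega
    · have h1 : (k + 1) / 3 = k / 3 + 1 := by omega
      have h2 : z (k / 3) < z (k / 3 + 1) := hz (Nat.lt_succ_self _)
      rw [h1]
      omega
  · unfold F3
    omega

theorem F3_Sh (z : Bs) : F3 (Sh z) = Sh (Sh (Sh (F3 z))) := by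
  funext k
  simp only [F3, Sh]
  have h1 : (k + 1 + 1 + 1) / 3 = k / 3 + 1 := by omega
  have h2 : (k + 1 + 1 + 1) % 3 = k % 3 := by omega
  rw [h1, h2]

theorem cont_F3 : Continuous F3 := by
  refine continuous_pi fun k => ?_
  unfold F3
  exact (continuous_const.mul (continuous_apply (k / 3))).add continuous_const

/-- The pairs `(v, y)`: the first value of `v` is the number of a graph. -/
def W (e : Bs) : Set (Bs × Bs) :=
  {p | (p.1 0 = 0 ∧ p.2 ∈ Y3) ∨ (p.1 0 ≠ 0 ∧ p.2 ∈ NN2 (p.1 0 - 1) e (Sh p.1))}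

theorem W_mono {e : Bs} {p : Bs × Bs} (h : p ∈ W e) : StrictMono p.2 := by
  rcases h with h | h
  · exact h.2.1
  · exact h.2.1

theorem W_Sh {e : Bs} {p : Bs × Bs} (h : p ∈ W e) : (p.1, Sh p.2) ∈ W e := by
  rcases h with h | h
  · exact Or.inl ⟨h.1, Y3_Sh h.2⟩
  · exact Or.inr ⟨h.1, NN2_Sh h.2⟩

theorem meas_W (e : Bs) : MeasurableSet (W e) := by
  have h1 : W e = ({p : Bs × Bs | p.1 0 = 0} ∩ Prod.snd ⁻¹' Y3) ∪
      ⋃ i : ℕ, ({p : Bs × Bs | p.1 0 = i + 1} ∩
        (fun p : Bs × Bs => (((e, Sh p.1), p.2) : (Bs × Bs) × Bs)) ⁻¹'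
          {p | p.2 ∈ NN2 i p.1.1 p.1.2}) := by
    ext p
    simp only [W, mem_ofPred_eq, mem_union, mem_inter_iff, mem_preimage, mem_iUnion]
    constructor
    · rintro (h | ⟨h, h2⟩)
      · exact Or.inl h
      · obtain ⟨i, hi⟩ := Nat.exists_eq_succ_of_ne_zero h
        refine Or.inr ⟨i, hi, ?_⟩
        have h3 : p.1 0 - 1 = i := by omega
        rwa [h3] at h2
    · rintro (h | ⟨i, hi, h2⟩)
      · exact Or.inl h
      · refine Or.inr ⟨by omega, ?_⟩
        have h3 : p.1 0 - 1 = i := by omega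
        rwa [h3]
  rw [h1]
  refine MeasurableSet.union ?_ (MeasurableSet.iUnion fun i => ?_)
  · exact (clopenP ((continuous_apply 0).comp continuous_fst) (· = 0)).1.measurableSet.inter
      (measurable_snd meas_Y3)
  · refine (clopenP ((continuous_apply 0).comp continuous_fst) (· = i + 1)).1.measurableSet.inter ?_
    exact (((measurable_const (a := e)).prodMk (measurable_Sh.comp measurable_fst)).prodMk
      measurable_snd) (meas_NN2 i)

/-- The numbers of the graphs used for the set `A` of indices. -/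
def idx (A : Set ℕ) : Set ℕ := {n | n = 0 ∨ ∃ i ∈ A, n = i + 1}

/-- See `W`. -/
def WA (e : Bs) (A : Set ℕ) : Set (Bs × Bs) := {p | p ∈ W e ∧ p.1 0 ∈ idx A}

theorem meas_WA (e : Bs) (A : Set ℕ) : MeasurableSet (WA e A) :=
  (meas_W e).inter (clopenP ((continuous_apply 0).comp continuous_fst) (· ∈ idx A)).1.measurableSet

theorem JS_injOn (e : Bs) : InjOn JS (W e) := fun _ hp _ hq h => JS_inj (W_mono hp) (W_mono hq) h

instance : MeasurableSpace.CountablySeparated (Set ℕ) :=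
  inferInstanceAs (MeasurableSpace.CountablySeparated (ℕ → Prop))

/-- **The Borel sets of infinite sets of natural numbers.** -/
def BA (e : Bs) (A : Set ℕ) : Set (Set ℕ) := JS '' WA e A

theorem meas_BA (e : Bs) (A : Set ℕ) : MeasurableSet (BA e A) :=
  (meas_WA e A).image_of_measurable_injOn meas_JS ((JS_injOn e).mono fun _ h => h.1)

theorem BA_infinite {e : Bs} {A : Set ℕ} {x : Set ℕ} (hx : x ∈ BA e A) : x.Infinite := by
  obtain ⟨p, hp, rfl⟩ := hx
  exact JS_infinite (W_mono hp.1)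

theorem idx_mono {A A' : Set ℕ} (h : A ⊆ A') : idx A ⊆ idx A' := by
  rintro n (rfl | ⟨i, hi, rfl⟩)
  · exact Or.inl rfl
  · exact Or.inr ⟨i, h hi, rfl⟩

theorem BA_mono (e : Bs) {A A' : Set ℕ} (h : A ⊆ A') : BA e A ⊆ BA e A' :=
  image_mono fun _ hp => ⟨hp.1, idx_mono h hp.2⟩

/-- Uniformity. -/
theorem meas_BA_unif (e : Bs) : MeasurableSet {p : Set ℕ × Set ℕ | p.2 ∈ BA e p.1} := by
  have h1 : {p : Set ℕ × Set ℕ | p.2 ∈ BA e p.1} = ⋃ n : ℕ, ({p : Set ℕ × Set ℕ | n ∈ idx p.1} ∩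
      Prod.snd ⁻¹' (JS '' (W e ∩ {q | q.1 0 = n}))) := by
    ext p
    simp only [mem_ofPred_eq, mem_iUnion, mem_inter_iff, mem_preimage, BA, WA, mem_image]
    constructor
    · rintro ⟨q, ⟨h1, h2⟩, h3⟩
      exact ⟨q.1 0, h2, q, ⟨h1, rfl⟩, h3⟩
    · rintro ⟨n, h1, q, ⟨h2, rfl⟩, h3⟩
      exact ⟨q, ⟨h2, h1⟩, h3⟩
  rw [h1]
  refine MeasurableSet.iUnion fun n => MeasurableSet.inter ?_ (measurable_snd ?_)
  · have h2 : {p : Set ℕ × Set ℕ | n ∈ idx p.1} = {_p | n = 0} ∪ ⋃ i : ℕ,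
        ({_p | n = i + 1} ∩ {p : Set ℕ × Set ℕ | i ∈ p.1}) := by
      ext p
      simp only [idx, mem_ofPred_eq, mem_union, mem_iUnion, mem_inter_iff]
      constructor
      · rintro (h | ⟨i, h1, h2⟩)
        · exact Or.inl h
        · exact Or.inr ⟨i, h2, h1⟩
      · rintro (h | ⟨i, h1, h2⟩)
        · exact Or.inl h
        · exact Or.inr ⟨i, h2, h1⟩
    rw [h2]
    refine (MeasurableSet.const _).union (MeasurableSet.iUnion fun i =>
      (MeasurableSet.const _).inter ?_)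
    exact measurable_fst (measurableSet_setOfPred.2 (measurable_set_mem i))
  · exact ((meas_W e).inter
      (clopenP ((continuous_apply 0).comp continuous_fst) (· = n)).1.measurableSet
        ).image_of_measurable_injOn meas_JS ((JS_injOn e).mono inter_subset_left)

/-- The inverse map. -/
noncomputable def dec (e : Bs) (A : Set ℕ) (x : BA e A) : Bs × Bs := x.2.choose

theorem dec_mem (e : Bs) (A : Set ℕ) (x : BA e A) : dec e A x ∈ WA e A := x.2.choose_spec.1

theorem dec_spec (e : Bs) (A : Set ℕ) (x : BA e A) : JS (dec e A x) = x.1 := x.2.choose_spec.2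

theorem meas_dec (e : Bs) (A : Set ℕ) : Measurable (dec e A) := by
  intro t ht
  have h1 : MeasurableSet (JS '' (WA e A ∩ t)) :=
    ((meas_WA e A).inter ht).image_of_measurable_injOn meas_JS
      ((JS_injOn e).mono fun _ h => h.1.1)
  have h2 : dec e A ⁻¹' t = Subtype.val ⁻¹' (JS '' (WA e A ∩ t)) := by
    ext x
    simp only [mem_preimage, mem_image, mem_inter_iff]
    constructor
    · intro h
      exact ⟨dec e A x, ⟨dec_mem e A x, h⟩, dec_spec e A x⟩
    · rintro ⟨p, ⟨hp, hpt⟩, h⟩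
      have h3 : dec e A x = p := JS_injOn e (dec_mem e A x).1 hp.1 (by rw [dec_spec, h])
      rwa [h3]
  rw [h2]
  exact measurable_subtype_coe h1

/-- `p'` is obtained from `p` by a shift. -/
def Nx (p p' : Bs × Bs) : Prop := p'.1 = p.1 ∧ p'.2 = Sh p.2

theorem dec_nx {e : Bs} {A : Set ℕ} {x y : BA e A} (h : y.1 = x.1 \ {sInf x.1}) :
    Nx (dec e A x) (dec e A y) := by
  have h1 := dec_mem e A x
  have h2 := dec_mem e A y
  have h3 : dec e A y = ((dec e A x).1, Sh (dec e A x).2) := by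
    refine JS_injOn e h2.1 (W_Sh h1.1) ?_
    rw [JS_Sh (W_mono h1.1), Prod.mk.eta, dec_spec, dec_spec, h]
  exact ⟨by rw [h3], by rw [h3]⟩

/-! ### The colouring of the products -/

theorem meas_param {Ω : Type*} [MeasurableSpace Ω] {f : Ω → ℕ} (hf : Measurable f)
    {g : ℕ → Ω → ℕ} (hg : ∀ n, Measurable (g n)) : Measurable fun ω => g (f ω) ω := by
  refine measurable_to_countable' fun k => ?_
  have h1 : (fun ω => g (f ω) ω) ⁻¹' {k} = ⋃ n, (f ⁻¹' {n} ∩ g n ⁻¹' {k}) := by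
    ext ω
    simp only [mem_preimage, mem_singleton_iff, mem_iUnion, mem_inter_iff]
    constructor
    · intro h
      exact ⟨_, rfl, h⟩
    · rintro ⟨n, rfl, h⟩
      exact h
  rw [h1]
  exact MeasurableSet.iUnion fun n =>
    (hf (measurableSet_singleton n)).inter (hg n (measurableSet_singleton k))

/-- The colouring, if the numbers of the two graphs are `a` and `b`. -/
noncomputable def K0 (e : Bs) (a b : ℕ) (r : (Bs × Bs) × (Bs × Bs)) : ℕ :=
  if a = 0 then r.1.2 0 % 4 % 3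
  else if b = 0 then r.2.2 0 % 4 % 3
  else if a < b then colQ (rr (a - 1) (b - 1) e) ((Sh r.1.1, r.1.2), (Sh r.2.1, r.2.2))
  else colQ (rr (b - 1) (a - 1) e) ((Sh r.2.1, r.2.2), (Sh r.1.1, r.1.2))

/-- The colouring. -/
noncomputable def KK (e : Bs) (r : (Bs × Bs) × (Bs × Bs)) : ℕ := K0 e (r.1.1 0) (r.2.1 0) r

theorem KK_lt (e : Bs) (r : (Bs × Bs) × (Bs × Bs)) : KK e r < 3 := by
  unfold KK K0
  split_ifs
  · exact Nat.mod_lt _ (by norm_num)
  · exact Nat.mod_lt _ (by norm_num)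
  · exact colQ_lt _ _
  · exact colQ_lt _ _

theorem meas_KK (e : Bs) : Measurable (KK e) := by
  have m11 : Measurable fun r : (Bs × Bs) × (Bs × Bs) => r.1.1 := measurable_fst.comp measurable_fst
  have m12 : Measurable fun r : (Bs × Bs) × (Bs × Bs) => r.1.2 := measurable_snd.comp measurable_fst
  have m21 : Measurable fun r : (Bs × Bs) × (Bs × Bs) => r.2.1 := measurable_fst.comp measurable_snd
  have m22 : Measurable fun r : (Bs × Bs) × (Bs × Bs) => r.2.2 := measurable_snd.comp measurable_snd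
  have hmod : Measurable fun a : ℕ => a % 4 % 3 := measurable_of_countable _
  have h1 : ∀ a b, Measurable (K0 e a b) := by
    intro a b
    unfold K0
    split_ifs
    · exact hmod.comp ((measurable_pi_apply 0).comp m12)
    · exact hmod.comp ((measurable_pi_apply 0).comp m22)
    · exact (meas_colQ _).comp (((measurable_Sh.comp m11).prodMk m12).prodMk
        ((measurable_Sh.comp m21).prodMk m22))
    · exact (meas_colQ _).comp (((measurable_Sh.comp m21).prodMk m22).prodMk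
        ((measurable_Sh.comp m11).prodMk m12))
  have h2 : ∀ a, Measurable fun r : (Bs × Bs) × (Bs × Bs) => K0 e a (r.2.1 0) r := fun a =>
    meas_param ((measurable_pi_apply 0).comp m21) (h1 a)
  exact meas_param (f := fun r : (Bs × Bs) × (Bs × Bs) => r.1.1 0)
    (g := fun a r => K0 e a (r.2.1 0) r) ((measurable_pi_apply 0).comp m11) h2

theorem GG_of_Nx {t : ℕ} {e' : Bs} {p p' : Bs × Bs} (h : Nx p p')
    (hN : p.2 ∈ NN t e' (Sh p.1)) : (GG t e').Adj (Sh p.1, p.2) (Sh p'.1, p'.2) := by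
  rw [GG_adj]
  refine Or.inl ⟨?_, hN, h.2⟩
  simp only [h.1]

/-- Neighbours. -/
def Nb2 (p p' : Bs × Bs) : Prop := Nx p p' ∨ Nx p' p

theorem Nb2_fst {p p' : Bs × Bs} (h : Nb2 p p') : p'.1 = p.1 := by
  rcases h with h | h
  · exact h.1
  · exact h.1.symm

theorem Y3_Nb {p p' : Bs × Bs} (h : Nb2 p p') (hp : p.2 ∈ Y3) (hp' : p'.2 ∈ Y3) :
    p.2 0 % 4 % 3 ≠ p'.2 0 % 4 % 3 := by
  rcases h with h | h
  · rw [h.2]
    exact Y3_ne hp
  · rw [h.2]
    exact (Y3_ne hp').symm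

theorem W_Y3 {e : Bs} {p : Bs × Bs} (h : p ∈ W e) (h0 : p.1 0 = 0) : p.2 ∈ Y3 := by
  rcases h with h | h
  · exact h.2
  · exact absurd h0 h.1

theorem W_NN {e : Bs} {p : Bs × Bs} (h : p ∈ W e) (h0 : p.1 0 ≠ 0) :
    p.2 ∈ NN2 (p.1 0 - 1) e (Sh p.1) := by
  rcases h with h | h
  · exact absurd h.1 h0
  · exact h.2

theorem GG_Nb {e : Bs} {t a b : ℕ} {p p' : Bs × Bs} (h : Nb2 p p')
    (hN : p.2 ∈ NN t (rr a b e) (Sh p.1)) (hN' : p'.2 ∈ NN t (rr a b e) (Sh p'.1)) :
    (GG t (rr a b e)).Adj (Sh p.1, p.2) (Sh p'.1, p'.2) := by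
  rcases h with h | h
  · exact GG_of_Nx h hN
  · exact (GG_of_Nx h hN').symm

theorem KK_ne {e : Bs} {p p' q q' : Bs × Bs} (hp : p ∈ W e) (hp' : p' ∈ W e) (hq : q ∈ W e)
    (hq' : q' ∈ W e) (h1 : Nb2 p p') (h2 : Nb2 q q') (h0 : p.1 0 = q.1 0 → p.1 0 = 0) :
    KK e (p, q) ≠ KK e (p', q') := by
  have e1 := Nb2_fst h1
  have e2 := Nb2_fst h2
  unfold KK K0
  simp only
  rw [e1, e2]
  by_cases ha : p.1 0 = 0
  · rw [if_pos ha, if_pos ha]
    exact Y3_Nb h1 (W_Y3 hp ha) (W_Y3 hp' (by rw [e1]; exact ha))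
  · rw [if_neg ha, if_neg ha]
    by_cases hb : q.1 0 = 0
    · rw [if_pos hb, if_pos hb]
      exact Y3_Nb h2 (W_Y3 hq hb) (W_Y3 hq' (by rw [e2]; exact hb))
    · rw [if_neg hb, if_neg hb]
      have np := W_NN hp ha
      have np' := W_NN hp' (by rw [e1]; exact ha)
      have nq := W_NN hq hb
      have nq' := W_NN hq' (by rw [e2]; exact hb)
      rw [e1] at np'
      rw [e2] at nq'
      by_cases hab : p.1 0 < q.1 0
      · rw [if_pos hab, if_pos hab]
        have hlt : p.1 0 - 1 < q.1 0 - 1 := by omega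
        have g1 := GG_Nb h1 (NN2_sub0 hlt np) (by rw [e1]; exact NN2_sub0 hlt np')
        have g2 := GG_Nb h2 (NN2_sub1 hlt nq) (by rw [e2]; exact NN2_sub1 hlt nq')
        rw [e1] at g1
        rw [e2] at g2
        exact colQ_ne g1 g2
      · rw [if_neg hab, if_neg hab]
        have hne : p.1 0 ≠ q.1 0 := fun h => ha (h0 h)
        have hlt : q.1 0 - 1 < p.1 0 - 1 := by omega
        have g1 := GG_Nb h1 (NN2_sub1 hlt np) (by rw [e1]; exact NN2_sub1 hlt np')
        have g2 := GG_Nb h2 (NN2_sub0 hlt nq) (by rw [e2]; exact NN2_sub0 hlt nq')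
        rw [e1] at g1
        rw [e2] at g2
        exact colQ_ne g2 g1

end Pool.Agent.Y537.SG
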