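import Mathlib
import Pool.Agent.Y537.SG.Emb

set_option autoImplicit false

/-!
# Borel chromatic numbers
-/

namespace Pool.Agent.Y537.SG

open Set Filter Topology MeasureTheory Cardinal
open Pool.Agent.W923.BH Pool.Agent.W923.BI Pool.Agent.W923.BR

/-- The shift graph: infinite sets `x` and `y` of natural numbers are adjacent if one of them is
obtained from the other one by removing its least element. -/
def shiftGraph : SimpleGraph (Set ℕ) where
  Adj x y := x.Infinite ∧ y.Infinite ∧ (y = x \ {sInf x} ∨ x = y \ {sInf y})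
  symm := ⟨fun _ _ h => ⟨h.2.1, h.1, h.2.2.symm⟩⟩
  loopless := ⟨fun x h => by
    have h1 : x = x \ {sInf x} := h.2.2.elim id id
    have h2 : sInf x ∈ x := Nat.sInf_mem h.1.nonempty
    rw [h1] at h2
    rw [← h1] at h2
    have h3 : sInf x ∈ x \ {sInf x} := h1 ▸ h2
    exact h3.2 rfl⟩

/-- The categorical product of two graphs. -/
def prodGraph {X Y : Type} (G : SimpleGraph X) (H : SimpleGraph Y) : SimpleGraph (X × Y) where
  Adj p q := G.Adj p.1 q.1 ∧ H.Adj p.2 q.2
  symm := ⟨fun _ _ h => ⟨h.1.symm, h.2.symm⟩⟩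
  loopless := ⟨fun _ h => h.1.ne rfl⟩

/-- The cardinalities of the standard Borel spaces `Z` for which there is a Borel map to `Z` taking
different values at adjacent vertices. -/
def colourNumbers {X : Type} [MeasurableSpace X] (G : SimpleGraph X) : Set Cardinal.{0} :=
  {κ | ∃ (Z : Type) (_ : MeasurableSpace Z) (_ : StandardBorelSpace Z) (c : X → Z),
    Measurable c ∧ (∀ x y, G.Adj x y → c x ≠ c y) ∧ #Z = κ}

/-- The Borel chromatic number: the least cardinality of a standard Borel space `Z` for which there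
is a Borel map to `Z` taking different values at adjacent vertices. -/
noncomputable def borelChromatic {X : Type} [MeasurableSpace X] (G : SimpleGraph X) :
    Cardinal.{0} := sInf (colourNumbers G)

/-- There is a Borel homomorphism from `G` to `H`. -/
def BorelHom {X Y : Type} [MeasurableSpace X] [MeasurableSpace Y] (G : SimpleGraph X)
    (H : SimpleGraph Y) : Prop :=
  ∃ f : X → Y, Measurable f ∧ ∀ x y, G.Adj x y → H.Adj (f x) (f y)

theorem BorelHom.mono {X Y : Type} [MeasurableSpace X] [MeasurableSpace Y] {G : SimpleGraph X}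
    {H : SimpleGraph Y} (h : BorelHom G H) (hne : (colourNumbers H).Nonempty) :
    borelChromatic G ≤ borelChromatic H := by
  obtain ⟨f, hf, h2⟩ := h
  refine csInf_le_csInf (OrderBot.bddBelow _) hne ?_
  rintro κ ⟨Z, i1, i2, c, hc, h3, h4⟩
  exact ⟨Z, i1, i2, c ∘ f, hc.comp hf, fun x y h => h3 _ _ (h2 x y h), h4⟩

theorem colour_aleph0 (B : Set (Set ℕ)) : ℵ₀ ∈ colourNumbers (shiftGraph.induce B) := by
  refine ⟨ℕ, inferInstance, inferInstance, fun x => sInf x.1, ?_, ?_, mk_nat⟩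
  · have h1 : Measurable fun x : Set ℕ => sInf x := by
      refine measurable_to_countable' fun n => ?_
      have h2 : ∀ m, MeasurableSet {x : Set ℕ | m ∈ x} := fun m =>
        measurableSet_setOfPred.2 (measurable_set_mem m)
      have h3 : (fun x : Set ℕ => sInf x) ⁻¹' {n} =
          ({x | n ∈ x} ∩ ⋂ m, ⋂ (_ : m < n), {x | m ∈ x}ᶜ) ∪
            ({_x | n = 0} ∩ ⋂ m, {x | m ∈ x}ᶜ) := by
        ext x
        simp only [mem_preimage, mem_singleton_iff, mem_union, mem_inter_iff, mem_iInter,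
          mem_compl_iff, mem_ofPred_eq]
        constructor
        · rintro rfl
          by_cases hx : x.Nonempty
          · exact Or.inl ⟨Nat.sInf_mem hx, fun m hm => Nat.notMem_of_lt_sInf hm⟩
          · rw [not_nonempty_iff_eq_empty] at hx
            subst hx
            exact Or.inr ⟨Nat.sInf_empty, fun m hm => hm⟩
        · rintro (⟨h4, h5⟩ | ⟨h4, h5⟩)
          · exact le_antisymm (Nat.sInf_le h4) (not_lt.1 fun h6 => h5 _ h6 (Nat.sInf_mem ⟨n, h4⟩))
          · have h6 : x = ∅ := by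
              ext m
              exact ⟨fun h => (h5 m h).elim, fun h => h.elim⟩
            rw [h6, h4, Nat.sInf_empty]
      rw [h3]
      refine MeasurableSet.union (MeasurableSet.inter (h2 n) ?_) (MeasurableSet.inter ?_ ?_)
      · exact MeasurableSet.iInter fun m => MeasurableSet.iInter fun _ => (h2 m).compl
      · exact MeasurableSet.const _
      · exact MeasurableSet.iInter fun m => (h2 m).compl
    exact h1.comp measurable_subtype_coe
  · have key : ∀ x y : Set ℕ, y.Infinite → y = x \ {sInf x} → sInf x ≠ sInf y := by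
      intro x y hy h1 h2
      have h3 : sInf y ∈ y := Nat.sInf_mem hy.nonempty
      rw [← h2, h1] at h3
      exact h3.2 rfl
    rintro ⟨x, hx⟩ ⟨y, hy⟩ ⟨h1, h2, h3 | h3⟩
    · exact key x y h2 h3
    · exact (key y x h1 h3).symm

theorem chrom_le_aleph0 (B : Set (Set ℕ)) : borelChromatic (shiftGraph.induce B) ≤ ℵ₀ :=
  csInf_le' (colour_aleph0 B)

theorem prod_colour (B C : Set (Set ℕ)) :
    ℵ₀ ∈ colourNumbers (prodGraph (shiftGraph.induce B) (shiftGraph.induce C)) := by
  obtain ⟨Z, i1, i2, c, hc, h3, h4⟩ := colour_aleph0 B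
  exact ⟨Z, i1, i2, c ∘ Prod.fst, hc.comp measurable_fst, fun x y h => h3 _ _ h.1, h4⟩

theorem prod_le_aleph0 (B C : Set (Set ℕ)) :
    borelChromatic (prodGraph (shiftGraph.induce B) (shiftGraph.induce C)) ≤ ℵ₀ :=
  csInf_le' (prod_colour B C)

/-! ### Lower bounds -/

/-- `i` followed by `u`. -/
def cons (i : ℕ) (u : Bs) : Bs := fun n => Nat.casesOn n i u

@[simp] theorem cons_zero (i : ℕ) (u : Bs) : cons i u 0 = i := rfl

@[simp] theorem Sh_cons (i : ℕ) (u : Bs) : Sh (cons i u) = u := rfl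

theorem cont_cons (i : ℕ) : Continuous (cons i) := by
  refine continuous_pi fun n => ?_
  rcases n with _ | n
  · exact continuous_const
  · exact continuous_apply n

theorem cons_mem {e : Bs} {A : Set ℕ} {i : ℕ} (hi : i ∈ A) {u y : Bs} (hy : y ∈ NN2 i e u) :
    (cons (i + 1) u, y) ∈ WA e A := by
  refine ⟨Or.inr ⟨Nat.succ_ne_zero _, ?_⟩, Or.inr ⟨i, hi, rfl⟩⟩
  exact hy

theorem adj_JS {e : Bs} {A : Set ℕ} {p : Bs × Bs} (h1 : p ∈ WA e A)
    (h2 : (p.1, Sh p.2) ∈ WA e A) :
    (shiftGraph.induce (BA e A)).Adj ⟨JS p, ⟨p, h1, rfl⟩⟩ ⟨JS (p.1, Sh p.2), ⟨_, h2, rfl⟩⟩ :=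
  ⟨JS_infinite (W_mono h1.1), JS_infinite (W_mono h2.1), Or.inl (JS_Sh (W_mono h1.1))⟩

theorem finite_bound {X : Type} [MeasurableSpace X] {G : SimpleGraph X} {N : ℕ}
    (h : ∀ c : X → ℕ, Measurable c → (∀ x, c x < N) → ∃ x y, G.Adj x y ∧ c x = c y)
    (hne : (colourNumbers G).Nonempty) : (N : Cardinal.{0}) < borelChromatic G := by
  obtain ⟨Z, i1, i2, c, hc, h3, h4⟩ := csInf_mem hne
  by_contra hcon
  rw [not_lt] at hcon
  change sInf (colourNumbers G) ≤ N at hcon
  rw [← h4] at hcon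
  have hfin : Finite Z := lt_aleph0_iff_finite.1 (hcon.trans_lt natCast_lt_aleph0)
  obtain ⟨n, ⟨g⟩⟩ := Finite.exists_equiv_fin Z
  have hn : n ≤ N := by
    have h5 : #Z = n := by
      rw [mk_congr g]
      simp
    rw [h5] at hcon
    exact_mod_cast hcon
  have hg : Measurable g := measurable_of_countable g
  obtain ⟨x, y, hxy, h6⟩ := h (fun x => ((g (c x) : Fin n) : ℕ))
    ((measurable_of_countable (fun k : Fin n => (k : ℕ))).comp (hg.comp hc))
    (fun x => (g (c x)).2.trans_le hn)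
  exact h3 x y hxy (g.injective (Fin.ext h6))

theorem aleph0_le_BA {e : Bs} (he : ∀ (i n : ℕ) (C : Bs × Bs → ℕ), Measurable C →
    (∀ p, C p < n) → ∃ u, ∃ y ∈ NN2 i e u, C (u, y) = C (u, Sh y)) {A : Set ℕ}
    (hA : A.Nonempty) : ℵ₀ ≤ borelChromatic (shiftGraph.induce (BA e A)) := by
  classical
  obtain ⟨i, hi⟩ := hA
  refine Cardinal.aleph0_le.2 fun N => (finite_bound ?_ ⟨_, colour_aleph0 _⟩).le
  intro c hc hlt
  have hj : Measurable fun p : Bs × Bs => (cons (i + 1) p.1, p.2) :=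
    ((cont_cons (i + 1)).measurable.comp measurable_fst).prodMk measurable_snd
  let S : Set (Bs × Bs) := {p | (cons (i + 1) p.1, p.2) ∈ WA e A}
  have hS : MeasurableSet S := hj (meas_WA e A)
  have h1 : Measurable fun p : S =>
      (⟨JS (cons (i + 1) p.1.1, p.1.2), ⟨_, p.2, rfl⟩⟩ : BA e A) :=
    (meas_JS.comp (hj.comp measurable_subtype_coe)).subtype_mk
  have h2 : Measurable fun p : S => c ⟨JS (cons (i + 1) p.1.1, p.1.2), ⟨_, p.2, rfl⟩⟩ :=
    hc.comp h1
  have hm : Measurable fun p : Bs × Bs =>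
      if h : p ∈ S then c ⟨JS (cons (i + 1) p.1, p.2), ⟨_, h, rfl⟩⟩ else 0 :=
    Measurable.dite (s := S) h2 measurable_const hS
  obtain ⟨u, y, hy, h⟩ := he i (N + 1) _ hm (by
    intro p
    by_cases h : p ∈ S
    · rw [dif_pos h]
      exact (hlt _).trans (Nat.lt_succ_self N)
    · rw [dif_neg h]
      exact Nat.succ_pos N)
  have h1 : (u, y) ∈ S := cons_mem hi hy
  have h2 : (u, Sh y) ∈ S := cons_mem hi (NN2_Sh hy)
  rw [dif_pos h1, dif_pos h2] at h
  exact ⟨_, _, adj_JS (p := (cons (i + 1) u, y)) h1 h2, h⟩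

/-- No Borel colouring with two colours. -/
theorem three_le (e : Bs) (A : Set ℕ) :
    3 ≤ borelChromatic (shiftGraph.induce (BA e A)) := by
  classical
  have h0 : (2 : ℕ) < borelChromatic (shiftGraph.induce (BA e A)) := by
    refine finite_bound ?_ ⟨_, colour_aleph0 _⟩
    intro c hc hlt
    by_contra hcon
    push Not at hcon
    have hj : Measurable fun z : Bs => ((fun _ => 0, F3 z) : Bs × Bs) :=
      measurable_const.prodMk cont_F3.measurable
    have hmem : ∀ z : Bs, z ∈ Y3 → ((fun _ => 0, z) : Bs × Bs) ∈ WA e A := fun z hz =>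
      ⟨Or.inl ⟨rfl, hz⟩, Or.inl rfl⟩
    let S : Set Bs := {z | StrictMono z}
    have h1 : Measurable fun z : S =>
        (⟨JS (fun _ => 0, F3 z.1), ⟨_, hmem _ (F3_mem z.2), rfl⟩⟩ : BA e A) :=
      (meas_JS.comp (hj.comp measurable_subtype_coe)).subtype_mk
    have hm : Measurable fun z : Bs =>
        if h : z ∈ S then c ⟨JS (fun _ => 0, F3 z), ⟨_, hmem _ (F3_mem h), rfl⟩⟩ else 0 :=
      Measurable.dite (s := S) (hc.comp h1) measurable_const meas_StrictMono
    obtain ⟨y, hy, h⟩ := shift_bits (fun _ => (fun z : Bs =>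
        if h : z ∈ S then c ⟨JS (fun _ => 0, F3 z), ⟨_, hmem _ (F3_mem h), rfl⟩⟩ else 0) ⁻¹' {0})
      (fun _ => hm (measurableSet_singleton 0)) 1
    have h2 := h 0 (by norm_num)
    have hy1 : y ∈ S := hy
    have hy2 : Sh y ∈ S := strictMono_Sh hy
    simp only [mem_preimage, mem_singleton_iff] at h2
    rw [dif_pos hy1, dif_pos hy2] at h2
    have m0 : F3 y ∈ Y3 := F3_mem hy
    have m1 := Y3_Sh m0
    have m2 := Y3_Sh m1
    have m3 := Y3_Sh m2
    have d : ∀ z (hz : z ∈ Y3), c ⟨JS (fun _ => 0, z), ⟨_, hmem _ hz, rfl⟩⟩ ≠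
        c ⟨JS (fun _ => 0, Sh z), ⟨_, hmem _ (Y3_Sh hz), rfl⟩⟩ := fun z hz =>
      hcon _ _ (adj_JS (p := (fun _ => 0, z)) (hmem z hz) (hmem _ (Y3_Sh hz)))
    have d0 := d _ m0
    have d1 := d _ m1
    have d2 := d _ m2
    have e3 : c ⟨JS (fun _ => 0, F3 (Sh y)), ⟨_, hmem _ (F3_mem hy2), rfl⟩⟩ =
        c ⟨JS (fun _ => 0, Sh (Sh (Sh (F3 y)))), ⟨_, hmem _ m3, rfl⟩⟩ := by
      exact congrArg c (Subtype.ext (congrArg (fun z : Bs => JS ((fun _ => 0, z) : Bs × Bs))
        (F3_Sh y)))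
    rw [e3] at h2
    have l0 := hlt ⟨JS (fun _ => 0, F3 y), ⟨_, hmem _ m0, rfl⟩⟩
    have l1 := hlt ⟨JS (fun _ => 0, Sh (F3 y)), ⟨_, hmem _ m1, rfl⟩⟩
    have l2 := hlt ⟨JS (fun _ => 0, Sh (Sh (F3 y))), ⟨_, hmem _ m2, rfl⟩⟩
    have l3 := hlt ⟨JS (fun _ => 0, Sh (Sh (Sh (F3 y)))), ⟨_, hmem _ m3, rfl⟩⟩
    generalize c ⟨JS (fun _ => 0, F3 y), ⟨_, hmem _ m0, rfl⟩⟩ = a0 at *
    generalize c ⟨JS (fun _ => 0, Sh (F3 y)), ⟨_, hmem _ m1, rfl⟩⟩ = a1 at *
    generalize c ⟨JS (fun _ => 0, Sh (Sh (F3 y))), ⟨_, hmem _ m2, rfl⟩⟩ = a2 at *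
    generalize c ⟨JS (fun _ => 0, Sh (Sh (Sh (F3 y)))), ⟨_, hmem _ m3, rfl⟩⟩ = a3 at *
    omega
  have h1 := Order.succ_le_of_lt h0
  have h2 : Order.succ ((2 : ℕ) : Cardinal.{0}) = 3 := by
    rw [succ_natCast]
    norm_num
  rwa [h2] at h1

/-! ### Upper bounds -/

theorem nb_dec {e : Bs} {A : Set ℕ} {x y : BA e A} (h : (shiftGraph.induce (BA e A)).Adj x y) :
    Nb2 (dec e A x) (dec e A y) := by
  obtain ⟨-, -, h | h⟩ := h
  · exact Or.inl (dec_nx h)
  · exact Or.inr (dec_nx h)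

theorem prod_le_three (e : Bs) {A A' : Set ℕ} (hd : ¬ (A ∩ A').Nonempty) :
    borelChromatic (prodGraph (shiftGraph.induce (BA e A)) (shiftGraph.induce (BA e A'))) ≤ 3 := by
  have hcard : #(Fin 3) = 3 := by simp
  rw [← hcard]
  have hmeas : Measurable fun p : BA e A × BA e A' => KK e (dec e A p.1, dec e A' p.2) :=
    (meas_KK e).comp (((meas_dec e A).comp measurable_fst).prodMk
      ((meas_dec e A').comp measurable_snd))
  refine csInf_le' ⟨Fin 3, inferInstance, inferInstance,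
    fun p => ⟨KK e (dec e A p.1, dec e A' p.2), KK_lt e _⟩, ?_, ?_, rfl⟩
  · refine measurable_to_countable' fun k => ?_
    have : (fun p : BA e A × BA e A' => (⟨KK e (dec e A p.1, dec e A' p.2),
        KK_lt e _⟩ : Fin 3)) ⁻¹' {k} =
        (fun p : BA e A × BA e A' => KK e (dec e A p.1, dec e A' p.2)) ⁻¹' {k.1} := by
      ext p
      simp [Fin.ext_iff]
    rw [this]
    exact hmeas (measurableSet_singleton _)
  · intro p q h h2
    refine KK_ne (dec_mem e A p.1).1 (dec_mem e A q.1).1 (dec_mem e A' p.2).1 (dec_mem e A' q.2).1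
      (nb_dec h.1) (nb_dec h.2) ?_ (congrArg Fin.val h2)
    intro h3
    rcases (dec_mem e A p.1).2 with h4 | ⟨i, hi, h4⟩
    · exact h4
    · rcases (dec_mem e A' p.2).2 with h5 | ⟨j, hj, h5⟩
      · rw [h3]
        exact h5
      · exfalso
        have hij : i = j := by omega
        subst hij
        exact hd ⟨i, hi, hj⟩

theorem one_le_three (e : Bs) {A : Set ℕ} (hA : ¬ A.Nonempty) :
    borelChromatic (shiftGraph.induce (BA e A)) ≤ 3 := by
  have h1 : BorelHom (shiftGraph.induce (BA e A))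
      (prodGraph (shiftGraph.induce (BA e A)) (shiftGraph.induce (BA e A))) :=
    ⟨fun x => (x, x), measurable_id.prodMk measurable_id, fun x y h => ⟨h, h⟩⟩
  refine (h1.mono ⟨_, prod_colour _ _⟩).trans (prod_le_three e ?_)
  rwa [inter_self]

theorem hom_incl {B C : Set (Set ℕ)} (h : B ⊆ C) :
    BorelHom (shiftGraph.induce B) (shiftGraph.induce C) :=
  ⟨fun x => ⟨x.1, h x.2⟩, measurable_subtype_coe.subtype_mk, fun _ _ h => h⟩

theorem hom_prod {B C D : Set (Set ℕ)} (h1 : BorelHom (shiftGraph.induce B) (shiftGraph.induce C))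
    (h2 : BorelHom (shiftGraph.induce B) (shiftGraph.induce D)) :
    BorelHom (shiftGraph.induce B) (prodGraph (shiftGraph.induce C) (shiftGraph.induce D)) := by
  obtain ⟨f, hf, hf2⟩ := h1
  obtain ⟨g, hg, hg2⟩ := h2
  exact ⟨fun x => (f x, g x), hf.prodMk hg, fun x y h => ⟨hf2 x y h, hg2 x y h⟩⟩

theorem chrom_prod {B C D : Set (Set ℕ)} (h1 : BorelHom (shiftGraph.induce B) (shiftGraph.induce C))
    (h2 : BorelHom (shiftGraph.induce B) (shiftGraph.induce D)) :
    borelChromatic (shiftGraph.induce B) ≤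
      borelChromatic (prodGraph (shiftGraph.induce C) (shiftGraph.induce D)) :=
  (hom_prod h1 h2).mono ⟨_, prod_colour _ _⟩


/-! ### Countable products -/

/-- The categorical product of a nonempty family of graphs. -/
def piGraph {ι : Type} [Nonempty ι] {X : ι → Type} (G : ∀ k, SimpleGraph (X k)) :
    SimpleGraph (∀ k, X k) where
  Adj p q := ∀ k, (G k).Adj (p k) (q k)
  symm := ⟨fun _ _ h k => (h k).symm⟩
  loopless := ⟨fun _ h => (h (Classical.arbitrary ι)).ne rfl⟩

theorem pi_colour {ι : Type} [Nonempty ι] (B : ι → Set (Set ℕ)) :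
    ℵ₀ ∈ colourNumbers (piGraph fun k => shiftGraph.induce (B k)) := by
  obtain ⟨Z, i1, i2, c, hc, h3, h4⟩ := colour_aleph0 (B (Classical.arbitrary ι))
  exact ⟨Z, i1, i2, fun p => c (p (Classical.arbitrary ι)), hc.comp (measurable_pi_apply _),
    fun x y h => h3 _ _ (h _), h4⟩

theorem chrom_pi {ι : Type} [Nonempty ι] {B : Set (Set ℕ)} {C : ι → Set (Set ℕ)}
    (h : ∀ k, B ⊆ C k) : borelChromatic (shiftGraph.induce B) ≤
      borelChromatic (piGraph fun k => shiftGraph.induce (C k)) := by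
  have h1 : BorelHom (shiftGraph.induce B) (piGraph fun k => shiftGraph.induce (C k)) :=
    ⟨fun x k => ⟨x.1, h k x.2⟩, measurable_pi_iff.2 fun k => measurable_subtype_coe.subtype_mk,
      fun _ _ h k => h⟩
  exact h1.mono ⟨_, pi_colour _⟩

theorem BA_iInter {ι : Type*} [Nonempty ι] (e : Bs) (A : ι → Set ℕ) :
    BA e (⋂ k, A k) = ⋂ k, BA e (A k) := by
  refine Subset.antisymm (subset_iInter fun k => BA_mono e (iInter_subset A k)) fun x hx => ?_
  rw [mem_iInter] at hx
  obtain ⟨p, hp, rfl⟩ := hx (Classical.arbitrary ι)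
  have h1 : ∀ k, p.1 0 ∈ idx (A k) := by
    intro k
    obtain ⟨q, hq, h⟩ := hx k
    have h2 : q = p := JS_injOn e hq.1 hp.1 h
    rw [← h2]
    exact hq.2
  refine ⟨p, ⟨hp.1, ?_⟩, rfl⟩
  rcases hp.2 with h2 | ⟨i, -, h2⟩
  · exact Or.inl h2
  · refine Or.inr ⟨i, mem_iInter.2 fun k => ?_, h2⟩
    rcases h1 k with h3 | ⟨j, hj, h3⟩
    · omega
    · have h4 : j = i := by omega
      exact h4 ▸ hj

theorem BA_iUnion {ι : Type*} [Nonempty ι] (e : Bs) (A : ι → Set ℕ) :
    BA e (⋃ k, A k) = ⋃ k, BA e (A k) := by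
  refine Subset.antisymm ?_ (iUnion_subset fun k => BA_mono e (subset_iUnion A k))
  rintro _ ⟨p, ⟨hp, h1⟩, rfl⟩
  rw [mem_iUnion]
  rcases h1 with h2 | ⟨i, hi, h2⟩
  · exact ⟨Classical.arbitrary ι, p, ⟨hp, Or.inl h2⟩, rfl⟩
  · obtain ⟨k, hk⟩ := mem_iUnion.1 hi
    exact ⟨k, p, ⟨hp, Or.inr ⟨i, hk, h2⟩⟩, rfl⟩

theorem pi_le_three {ι : Type} [Countable ι] [Nonempty ι] (e : Bs) {A : ι → Set ℕ}
    (hd : ¬ (⋂ k, A k).Nonempty) :
    borelChromatic (piGraph fun k => shiftGraph.induce (BA e (A k))) ≤ 3 := by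
  obtain ⟨s, hs⟩ := exists_surjective_nat ι
  let d : ι → (∀ k, BA e (A k)) → Bs × Bs := fun k p => dec e (A k) (p k)
  have md : ∀ k, Measurable (d k) := fun k => (meas_dec e (A k)).comp (measurable_pi_apply k)
  have md0 : ∀ k, Measurable fun p => (d k p).1 0 := fun k =>
    (measurable_pi_apply 0).comp (measurable_fst.comp (md k))
  let P : (∀ k, BA e (A k)) → ℕ → Prop := fun p n =>
    (d (s n.unpair.1) p).1 0 = (d (s n.unpair.2) p).1 0 → (d (s n.unpair.1) p).1 0 = 0
  have mP : ∀ n, MeasurableSet {p | P p n} := by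
    intro n
    exact MeasurableSet.imp (measurableSet_eq_fun (md0 _) (md0 _))
      (measurableSet_eq_fun (md0 _) measurable_const)
  have hP : ∀ p, ∃ n, P p n := by
    intro p
    by_contra hcon
    push Not at hcon
    have h1 : ∀ k l, (d k p).1 0 = (d l p).1 0 ∧ (d k p).1 0 ≠ 0 := by
      intro k l
      obtain ⟨a, rfl⟩ := hs k
      obtain ⟨b, rfl⟩ := hs l
      have h2 := hcon (Nat.pair a b)
      simp only [P, Nat.unpair_pair] at h2
      push Not at h2
      exact h2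
    rcases (dec_mem e (A (s 0)) (p (s 0))).2 with h2 | ⟨i, -, h2⟩
    · exact (h1 (s 0) (s 0)).2 h2
    · refine hd ⟨i, mem_iInter.2 fun k => ?_⟩
      have h3 := (h1 k (s 0)).1
      change (dec e (A k) (p k)).1 0 = (dec e (A (s 0)) (p (s 0))).1 0 at h3
      rcases (dec_mem e (A k) (p k)).2 with h4 | ⟨j, hj, h4⟩
      · omega
      · have h5 : j = i := by omega
        exact h5 ▸ hj
  let c : (∀ k, BA e (A k)) → ℕ := fun p => KK e
    (d (s (lst (P p)).unpair.1) p, d (s (lst (P p)).unpair.2) p)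
  have hc : Measurable c := meas_param (f := fun p => lst (P p))
    (g := fun n p => KK e (d (s n.unpair.1) p, d (s n.unpair.2) p)) (measurable_lst mP)
    fun n => (meas_KK e).comp ((md _).prodMk (md _))
  have hcard : #(Fin 3) = 3 := by simp
  rw [← hcard]
  refine csInf_le' ⟨Fin 3, inferInstance, inferInstance, fun p => ⟨c p, KK_lt e _⟩, ?_, ?_, rfl⟩
  · refine measurable_to_countable' fun k => ?_
    have : (fun p => (⟨c p, KK_lt e _⟩ : Fin 3)) ⁻¹' {k} = c ⁻¹' {k.1} := by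
      ext p
      simp [Fin.ext_iff]
    rw [this]
    exact hc (measurableSet_singleton _)
  · intro p q h h2
    have hn : ∀ k, Nb2 (d k p) (d k q) := fun k => nb_dec (h k)
    have hPP : P q = P p := by
      funext n
      simp only [P]
      rw [Nb2_fst (hn _), Nb2_fst (hn _)]
    have h3 := lst_spec (hP p)
    have h4 : c p = c q := congrArg Fin.val h2
    simp only [c] at h4
    rw [hPP] at h4
    exact KK_ne (dec_mem e _ _).1 (dec_mem e _ _).1 (dec_mem e _ _).1 (dec_mem e _ _).1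
      (hn _) (hn _) h3 h4

open Classical in
/-- **The power set of the natural numbers in the Borel subgraphs of the shift graph.** -/
theorem main : ∃ B : Set ℕ → Set (Set ℕ),
    MeasurableSet {p : Set ℕ × Set ℕ | p.2 ∈ B p.1} ∧
    (∀ A, MeasurableSet (B A)) ∧
    (∀ A, ∀ x ∈ B A, x.Infinite) ∧
    (∀ (ι : Type) [Nonempty ι] (A : ι → Set ℕ),
      B (⋃ k, A k) = ⋃ k, B (A k) ∧ B (⋂ k, A k) = ⋂ k, B (A k)) ∧
    (∀ A, borelChromatic (shiftGraph.induce (B A)) = if A.Nonempty then ℵ₀ else 3) ∧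
    (∀ A A', borelChromatic (prodGraph (shiftGraph.induce (B A)) (shiftGraph.induce (B A'))) =
      if (A ∩ A').Nonempty then ℵ₀ else 3) ∧
    (∀ (ι : Type) [Countable ι] [Nonempty ι] (A : ι → Set ℕ),
      borelChromatic (piGraph fun k => shiftGraph.induce (B (A k))) =
        if (⋂ k, A k).Nonempty then ℵ₀ else 3) ∧
    ∀ A A', BorelHom (shiftGraph.induce (B A)) (shiftGraph.induce (B A')) ↔ A ⊆ A' := by
  obtain ⟨e, he⟩ := exists_e2
  have h1 : ∀ A, borelChromatic (shiftGraph.induce (BA e A)) = if A.Nonempty then ℵ₀ else 3 := by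
    intro A
    split_ifs with h
    · exact le_antisymm (chrom_le_aleph0 _) (aleph0_le_BA he h)
    · exact le_antisymm (one_le_three e h) (three_le e A)
  have h2 : ∀ A A', borelChromatic (prodGraph (shiftGraph.induce (BA e A))
      (shiftGraph.induce (BA e A'))) = if (A ∩ A').Nonempty then ℵ₀ else 3 := by
    intro A A'
    have h3 := chrom_prod (hom_incl (BA_mono e (inter_subset_left : A ∩ A' ⊆ A)))
      (hom_incl (BA_mono e (inter_subset_right : A ∩ A' ⊆ A')))
    rw [h1] at h3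
    split_ifs with h
    · rw [if_pos h] at h3
      exact le_antisymm (prod_le_aleph0 _ _) h3
    · rw [if_neg h] at h3
      exact le_antisymm (prod_le_three e h) h3
  have h2' : ∀ (ι : Type) [Countable ι] [Nonempty ι] (A : ι → Set ℕ),
      borelChromatic (piGraph fun k => shiftGraph.induce (BA e (A k))) =
        if (⋂ k, A k).Nonempty then ℵ₀ else 3 := by
    intro ι _ _ A
    have h3 := chrom_pi (B := BA e (⋂ k, A k)) (C := fun k => BA e (A k))
      (fun k => BA_mono e (iInter_subset A k))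
    rw [h1] at h3
    split_ifs with h
    · rw [if_pos h] at h3
      exact le_antisymm (csInf_le' (pi_colour _)) h3
    · rw [if_neg h] at h3
      exact le_antisymm (pi_le_three e h) h3
  refine ⟨BA e, meas_BA_unif e, meas_BA e, fun A x hx => BA_infinite hx,
    fun ι _ A => ⟨BA_iUnion e A, BA_iInter e A⟩, h1, h2, h2', fun A A' => ⟨fun h i hi => ?_,
      fun h => hom_incl (BA_mono e h)⟩⟩
  by_contra hcon
  have h3 : BorelHom (shiftGraph.induce (BA e {i})) (shiftGraph.induce (BA e A)) :=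
    hom_incl (BA_mono e (singleton_subset_iff.2 hi))
  have h4 : BorelHom (shiftGraph.induce (BA e {i})) (shiftGraph.induce (BA e A')) := by
    obtain ⟨f, hf, hf2⟩ := h3
    obtain ⟨g, hg, hg2⟩ := h
    exact ⟨g ∘ f, hg.comp hf, fun x y h => hg2 _ _ (hf2 x y h)⟩
  have h5 : BorelHom (shiftGraph.induce (BA e {i})) (shiftGraph.induce (BA e {i})) :=
    hom_incl Subset.rfl
  have h6 := chrom_prod h5 h4
  rw [h1, h2, if_pos (singleton_nonempty i), if_neg] at h6
  · have h7 : (3 : Cardinal.{0}) < ℵ₀ := by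
      have := natCast_lt_aleph0 (n := 3)
      exact_mod_cast this
    exact absurd h6 (not_le.2 h7)
  · rintro ⟨j, hj, hj'⟩
    rw [mem_singleton_iff] at hj
    subst hj
    exact hcon hj'

end Pool.Agent.Y537.SG
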